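import Pool.Agent.W79.BP.Defs

/-!
# Few graphs have an automorphism moving many cycles
-/

set_option autoImplicit false

namespace Pool.Agent.W196.BP.A1

open scoped Classical
open Pool.Agent.W79.BP

/-- the data -/
abbrev Dt (n q : ℕ) : Type :=
  (Fin q → Fin n) × (Fin q → Fin n) × (Fin q → Fin n) × (Fin q → Fin n)

/-- admissible data `(b, v, y, w)` -/
structure Adm {n q : ℕ} (σ : Equiv.Perm (Fin n)) (d : Dt n q) : Prop where
  bb : ∀ i i', i ≠ i' → ¬ σ.SameCycle (d.1 i) (d.1 i')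
  vv : ∀ j j', j ≠ j' → ¬ σ.SameCycle (d.2.1 j) (d.2.1 j')
  vb : ∀ i j, ¬ σ.SameCycle (d.2.1 j) (d.1 i)
  yb : ∀ i, ¬ σ.SameCycle (d.1 i) (d.2.2.1 i)
  wy : ∀ i j, d.2.2.2 j ≠ d.2.2.1 i

/-- the graphs with data `d` -/
noncomputable def EE {n q : ℕ} (σ : Equiv.Perm (Fin n)) (d : Dt n q) : Finset (SimpleGraph (Fin n)) :=
  (Fx σ).filter (fun β => Adm σ d ∧
    ∀ i j, β.Adj (d.2.1 j) (d.1 i) ↔ β.Adj (d.2.2.2 j) (d.2.2.1 i))

lemma so_left {n : ℕ} {σ : Equiv.Perm (Fin n)} {a b c e : Fin n} (h : SO σ (a, b) (c, e)) :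
    (σ.SameCycle a c ∧ σ.SameCycle b e) ∨ (σ.SameCycle a e ∧ σ.SameCycle b c) := by
  obtain ⟨k, h | h⟩ := h
  · exact Or.inl ⟨⟨k, h.1⟩, ⟨k, h.2⟩⟩
  · exact Or.inr ⟨⟨k, h.1⟩, ⟨k, h.2⟩⟩

lemma card_EE (hEQ : S_EQ) {n q : ℕ} (σ : Equiv.Perm (Fin n)) (d : Dt n q) :
    (EE σ d).card * 2 ^ ((q * q - q) / 4) ≤ (Fx σ).card := by
  by_cases hA : Adm σ d
  · obtain ⟨b, v, y, w⟩ := d
    have hbb := hA.bb
    have hvv := hA.vv
    have hvb := hA.vb
    have hyb := hA.yb
    have hwy := hA.wy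
    simp only at hbb hvv hvb hyb hwy
    -- the index set
    let J : Type := {x : Fin q × Fin q // ¬ σ.SameCycle (v x.2) (y x.1)}
    have hJ : q * q - q ≤ Fintype.card J := by
      have h1 : Fintype.card J + Fintype.card {x : Fin q × Fin q // σ.SameCycle (v x.2) (y x.1)} = q * q := by
        have h2 := Fintype.card_subtype_compl (fun x : Fin q × Fin q => σ.SameCycle (v x.2) (y x.1))
        have h3 : Fintype.card {x : Fin q × Fin q // σ.SameCycle (v x.2) (y x.1)} ≤ Fintype.card (Fin q × Fin q) :=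
          Fintype.card_subtype_le _
        have h4 : Fintype.card (Fin q × Fin q) = q * q := by simp
        have h5 : Fintype.card J = Fintype.card {x : Fin q × Fin q // ¬ σ.SameCycle (v x.2) (y x.1)} := rfl
        omega
      have h6 : Fintype.card {x : Fin q × Fin q // σ.SameCycle (v x.2) (y x.1)} ≤ q := by
        have h7 := Fintype.card_le_of_injective
          (fun x : {x : Fin q × Fin q // σ.SameCycle (v x.2) (y x.1)} => x.1.1) (by
            rintro ⟨⟨i, j⟩, hx⟩ ⟨⟨i', j'⟩, hx'⟩ h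
            simp only at h hx hx'
            subst h
            by_cases hj : j = j'
            · subst hj; rfl
            · exact absurd (hx.trans hx'.symm) (hvv j j' hj))
        simpa using h7
      omega
    have h8 := hEQ n σ J (fun x => (v x.1.2, b x.1.1)) (fun x => (w x.1.2, y x.1.1)) ?_ ?_ ?_ ?_
    · refine le_trans (Nat.mul_le_mul ?_ ?_) h8
      · apply Finset.card_le_card
        intro β hβ
        unfold EE at hβ
        rw [Finset.mem_filter] at hβ ⊢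
        exact ⟨hβ.1, fun x => hβ.2.2 x.1.1 x.1.2⟩
      · exact Nat.pow_le_pow_right (by norm_num) (Nat.div_le_div_right hJ)
    · rintro ⟨⟨i, j⟩, hx⟩ he
      exact hvb i j (by
        simp only at he
        rw [he])
    · rintro ⟨⟨i, j⟩, hx⟩
      exact hwy i j
    · rintro ⟨⟨i, j⟩, hx⟩ ⟨⟨i', j'⟩, hx'⟩ hne hso
      rcases so_left hso with ⟨h1, h2⟩ | ⟨h1, h2⟩
      · apply hne
        have hi : i = i' := by
          by_contra hcon
          exact hbb i i' hcon h2
        have hj : j = j' := by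
          by_contra hcon
          exact hvv j j' hcon h1
        subst hi; subst hj; rfl
      · exact hvb i' j h1
    · rintro ⟨⟨i, j⟩, hx⟩ hso
      rcases so_left hso with ⟨h1, h2⟩ | ⟨h1, h2⟩
      · exact hyb i h2
      · exact hx h1
  · have : EE σ d = ∅ := by
      unfold EE
      rw [Finset.filter_eq_empty_iff]
      intro β _ h
      exact hA h.1
    rw [this]
    simp

lemma mem_cy {n : ℕ} {σ : Equiv.Perm (Fin n)} {x y : Fin n} : y ∈ cy σ x ↔ σ.SameCycle x y := by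
  unfold cy
  simp

lemma Cy_eq {n : ℕ} {σ : Equiv.Perm (Fin n)} {C : Finset (Fin n)} (hC : C ∈ Cy σ) {x : Fin n}
    (hx : x ∈ C) : C = cy σ x := by
  unfold Cy at hC
  rw [Finset.mem_image] at hC
  obtain ⟨z, _, rfl⟩ := hC
  rw [mem_cy] at hx
  ext u
  rw [mem_cy, mem_cy]
  exact ⟨fun h => hx.symm.trans h, fun h => hx.trans h⟩

lemma Cy_ne {n : ℕ} {σ : Equiv.Perm (Fin n)} {C : Finset (Fin n)} (hC : C ∈ Cy σ) : C.Nonempty := by
  unfold Cy at hC
  rw [Finset.mem_image] at hC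
  obtain ⟨z, _, rfl⟩ := hC
  exact ⟨z, mem_cy.2 (Equiv.Perm.SameCycle.refl σ z)⟩

lemma cover {n q : ℕ} (σ : Equiv.Perm (Fin n)) (hq : 2 * q ≤ (Cy σ).card) :
    ((Fx σ).filter (fun β => ∃ τ ∈ Au β,
      q ≤ ((Cy σ).filter (fun C => ∃ x ∈ C, τ x ∉ C)).card)) ⊆
      (Finset.univ : Finset (Dt n q)).biUnion (EE σ) := by
  intro β hβ
  rw [Finset.mem_filter] at hβ
  obtain ⟨hβ1, τ, hτ, hcard⟩ := hβ
  have hτ' : SimpleGraph.comap (⇑τ) β = β := (Finset.mem_filter.1 hτ).2
  have hadj : ∀ a b, β.Adj a b ↔ β.Adj (τ a) (τ b) := by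
    intro a b
    conv_lhs => rw [← hτ']
    rw [SimpleGraph.comap_adj]
  obtain ⟨M, hM1, hM2⟩ := Finset.exists_subset_card_eq hcard
  have hMC : M ⊆ Cy σ := fun C hC => (Finset.mem_filter.1 (hM1 hC)).1
  have hrest : q ≤ (Cy σ \ M).card := by
    rw [Finset.card_sdiff_of_subset hMC]
    omega
  obtain ⟨V, hV1, hV2⟩ := Finset.exists_subset_card_eq hrest
  let eM := M.equivFinOfCardEq hM2
  let eV := V.equivFinOfCardEq hV2
  have hMx : ∀ i : Fin q, ∃ x, x ∈ (eM.symm i : Finset (Fin n)) ∧ τ x ∉ (eM.symm i : Finset (Fin n)) := by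
    intro i
    obtain ⟨x, hx⟩ := (Finset.mem_filter.1 (hM1 (eM.symm i).2)).2
    exact ⟨x, hx⟩
  choose b hb1 hb2 using hMx
  have hVx : ∀ j : Fin q, ∃ x, x ∈ (eV.symm j : Finset (Fin n)) := by
    intro j
    exact Cy_ne (Finset.mem_sdiff.1 (hV1 (eV.symm j).2)).1
  choose v hv using hVx
  have hCb : ∀ i, (eM.symm i : Finset (Fin n)) = cy σ (b i) := fun i =>
    Cy_eq (hMC (eM.symm i).2) (hb1 i)
  have hCv : ∀ j, (eV.symm j : Finset (Fin n)) = cy σ (v j) := fun j =>
    Cy_eq (Finset.mem_sdiff.1 (hV1 (eV.symm j).2)).1 (hv j)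
  have cy_eq : ∀ {x y : Fin n}, σ.SameCycle x y → cy σ x = cy σ y := by
    intro x y h
    ext u
    rw [mem_cy, mem_cy]
    exact ⟨fun h' => h.symm.trans h', fun h' => h.trans h'⟩
  rw [Finset.mem_biUnion]
  refine ⟨(b, v, fun i => τ (b i), fun j => τ (v j)), Finset.mem_univ _, ?_⟩
  unfold EE
  rw [Finset.mem_filter]
  have hvb : ∀ i j, ¬ σ.SameCycle (v j) (b i) := by
    intro i j h
    have h1 : (eM.symm i : Finset (Fin n)) = (eV.symm j : Finset (Fin n)) := by
      rw [hCb, hCv, cy_eq h]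
    have h2 := (Finset.mem_sdiff.1 (hV1 (eV.symm j).2)).2
    rw [← h1] at h2
    exact h2 (eM.symm i).2
  refine ⟨hβ1, ⟨?_, ?_, hvb, ?_, ?_⟩, ?_⟩
  · intro i i' hne h
    apply hne
    apply eM.symm.injective
    apply Subtype.ext
    rw [hCb, hCb, cy_eq h]
  · intro j j' hne h
    apply hne
    apply eV.symm.injective
    apply Subtype.ext
    rw [hCv, hCv]
    exact cy_eq h
  · intro i h
    apply hb2 i
    rw [hCb, mem_cy]
    exact h
  · intro i j h
    have h1 : v j = b i := τ.injective h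
    apply hvb i j
    rw [h1]
  · intro i j
    exact hadj _ _

theorem main : S_EQ → S_A1 := by
  intro hEQ n σ q hq
  have h1 := Finset.card_le_card (cover (q := q) σ hq)
  have h2 : ((Finset.univ : Finset (Dt n q)).biUnion (EE σ)).card ≤
      ∑ d : Dt n q, (EE σ d).card := Finset.card_biUnion_le
  calc _ ≤ (∑ d : Dt n q, (EE σ d).card) * 2 ^ ((q * q - q) / 4) :=
        Nat.mul_le_mul_right _ (h1.trans h2)
    _ = ∑ d : Dt n q, (EE σ d).card * 2 ^ ((q * q - q) / 4) := by rw [Finset.sum_mul]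
    _ ≤ ∑ _d : Dt n q, (Fx σ).card := Finset.sum_le_sum fun d _ => card_EE hEQ σ d
    _ = n ^ (4 * q) * (Fx σ).card := by
        rw [Finset.sum_const, smul_eq_mul, Finset.card_univ]
        congr 1
        simp only [Dt, Fintype.card_prod, Fintype.card_fun, Fintype.card_fin]
        ring

end Pool.Agent.W196.BP.A1
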